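import Mathlib

set_option autoImplicit false

namespace Pool.Agent.Results.MP_efe325_an.AimpB

open MeasureTheory Finset InnerProductSpace
open scoped ENNReal NNReal symmDiff

/-- Vertices: root `[]`, children of `v` are `b :: v`.  An edge is named by its child endpoint
(`[]` names `(o*, o)`), so `anc x = [o*, x]`. -/
def anc (x : List Bool) : Finset (List Bool) := x.tails.toFinset

/-- `d(x ∧ y)`. -/
def dw (x y : List Bool) : ℤ := (anc x ∩ anc y).card

/-- `k_{(a,b)}(x,y)`. -/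
def k (p q : List Bool × List Bool) : ℤ := dw p.1 q.1 + dw p.2 q.2 - dw p.1 q.2 - dw p.2 q.1

/-- `∇F`, where `c = F(o*)`. -/
def grad (F : List Bool → ℝ) (c : ℝ) (v : List Bool) : ℝ := F v - if v = [] then c else F v.tail

/-- Condition (a') with constant `C`. -/
def A [MeasurableSpace (List Bool)] (μ : Measure (List Bool)) (C : ℝ≥0) : Prop :=
  ∀ F c, ∫⁻ x, ∫⁻ y, ‖F x - F y‖ₑ ^ 2 ∂μ ∂μ ≤ C * ∑' v, ‖grad F c v‖ₑ ^ 2

lemma mem_anc {v x : List Bool} : v ∈ anc x ↔ v <:+ x := by simp [anc]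

lemma not_mem (b : Bool) (v : List Bool) : b :: v ∉ anc v := fun h => by
  simpa using (mem_anc.1 h).length_le

lemma anc_cons (b : Bool) (v : List Bool) : anc (b :: v) = insert (b :: v) (anc v) := by simp [anc]

lemma k_symm (p q : List Bool × List Bool) : k p q = k q p := by
  simp only [k, dw, inter_comm]
  ring

lemma k_edge {v : List Bool} (hv : v ≠ []) (x y : List Bool) :
    |k (v.tail, v) (x, y)| = if v ∈ anc x ∆ anc y then 1 else 0 := by
  obtain ⟨b, w, rfl⟩ := List.exists_cons_of_ne_nil hv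
  have : ∀ z, dw (b :: w) z = dw w z + if b :: w ∈ anc z then 1 else 0 := fun z => by
    unfold dw
    rw [anc_cons]
    split_ifs with h
    · rw [insert_inter_of_mem h, card_insert_of_notMem (by simp [not_mem])]
      simp
    · simp [insert_inter_of_notMem h]
  have e : ∀ a b c d : ℤ, a + (b + c) - b - (a + d) = c - d := fun a b c d => by ring
  simp only [k, List.tail_cons, this, mem_symmDiff, e]
  by_cases h1 : b :: w ∈ anc x <;> by_cases h2 : b :: w ∈ anc y <;> simp [h1, h2]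

lemma k_self (x y : List Bool) : |k (x, y) (x, y)| = (anc x ∆ anc y).card := by
  have h1 := card_sdiff_add_card_inter (anc x) (anc y)
  have h2 := card_sdiff_add_card_inter (anc y) (anc x)
  rw [symmDiff_def, sup_eq_union, card_union_of_disjoint disjoint_sdiff_sdiff]
  simp only [k, dw, inter_self]
  rw [abs_of_nonneg] <;> omega

lemma ne_nil {v x y : List Bool} (h : v ∈ anc x ∆ anc y) : v ≠ [] := by
  rintro rfl
  simp [mem_symmDiff, mem_anc] at h

lemma edge_mem {v w : List Bool} (hw : w ≠ []) : v ∈ anc w.tail ∆ anc w ↔ v = w := by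
  obtain ⟨b, w, rfl⟩ := List.exists_cons_of_ne_nil hw
  have := not_mem b w
  simp only [List.tail_cons, anc_cons, mem_symmDiff, mem_insert]
  grind

section
variable {𝕜 H : Type*} [RCLike 𝕜] [NormedAddCommGroup H] [InnerProductSpace 𝕜 H] [CompleteSpace H]
  [RKHS 𝕜 H (List Bool × List Bool) 𝕜]

lemma ev (p : List Bool × List Bool) (G : H) : ⟪RKHS.kerFun H p 1, G⟫_𝕜 = G p := by simp

variable (hK : ∀ p q, RKHS.kernel H p q 1 = (|k p q| : ℤ))
include hK

lemma inn (p q : List Bool × List Bool) :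
    ⟪RKHS.kerFun H p 1, RKHS.kerFun H q 1⟫_𝕜 = (|k p q| : ℤ) := by
  rw [ev, RKHS.kerFun_apply, hK]

lemma rep (G : H) (x y : List Bool) : G (x, y) = ∑ v ∈ anc x ∆ anc y, G (v.tail, v) := by
  have : RKHS.kerFun H (x, y) 1 = ∑ v ∈ anc x ∆ anc y, RKHS.kerFun H (v.tail, v) 1 := by
    rw [← sub_eq_zero, ← inner_self_eq_zero (𝕜 := 𝕜)]
    simp only [inner_sub_left, inner_sub_right, sum_inner, inner_sum, inn hK]
    have a : ∀ v ∈ anc x ∆ anc y, ((|k (v.tail, v) (x, y)| : ℤ) : 𝕜) = 1 := fun v hv => by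
      simp [k_edge (ne_nil hv), hv]
    have b : ∀ w ∈ anc x ∆ anc y,
        ∑ v ∈ anc x ∆ anc y, ((|k (v.tail, v) (w.tail, w)| : ℤ) : 𝕜) = 1 := fun w hw => by
      rw [sum_eq_single_of_mem w hw]
      · simp [k_edge (ne_nil hw), edge_mem (ne_nil hw)]
      · intro v hv h
        simp [k_edge (ne_nil hv), edge_mem (ne_nil hw), h]
    simp only [k_symm (x, y), sum_sub_distrib]
    rw [k_self, sum_congr rfl a, sum_congr rfl b]
    simp
  rw [← ev, this, sum_inner]
  simp

lemma bessel (G : H) : ∑' v : List Bool, ‖G (v.tail, v)‖ₑ ^ 2 ≤ ‖G‖ₑ ^ 2 := by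
  have on : Orthonormal 𝕜 fun v : {v : List Bool // v ≠ []} => RKHS.kerFun H (v.1.tail, v.1) 1 := by
    refine orthonormal_iff_ite.2 fun v w => ?_
    simp [-RKHS.kerFun_inner, -RKHS.inner_kerFun, inn hK, k_edge v.2, edge_mem w.2, Subtype.ext_iff]
  rw [ENNReal.tsum_eq_iSup_sum]
  refine iSup_le fun s => ?_
  have := on.sum_inner_products_le G (s := s.subtype _)
  simp only [ev] at this
  rw [sum_subtype_eq_sum_filter (f := fun v => ‖G (v.tail, v)‖ ^ 2), sum_filter_of_ne] at this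
  · simp only [enorm_eq_nnnorm]
    norm_cast
    rw [← NNReal.coe_le_coe]
    simpa using this
  · rintro v - h rfl
    simp [rep hK G [] []] at h

end

def D (ψ : List Bool → ℝ) (m x : List Bool) : ℝ := ∑ v ∈ anc x ∆ anc m, ψ v

section
variable [MeasurableSpace (List Bool)] [DiscreteMeasurableSpace (List Bool)]
  {μ : Measure (List Bool)} {C : ℝ≥0}

lemma L1 (h : A μ C) (ψ : List Bool → ℝ) (m : List Bool) {Z : Set (List Bool)}
    (hZ : ∀ y ∈ Z, D ψ m y = 0) :
    (∫⁻ x, ‖D ψ m x‖ₑ ^ 2 ∂μ) * μ Z ≤ C * ∑' v, ‖ψ v‖ₑ ^ 2 := by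
  let φ : List Bool → ℝ := fun v => if v ∈ anc m then -ψ v else ψ v
  have e : ∀ x, ∑ v ∈ anc x, φ v = D ψ m x + ∑ v ∈ anc m, φ v := fun x => by
    have a : ∑ v ∈ anc x \ anc m, φ v = ∑ v ∈ anc x \ anc m, ψ v :=
      sum_congr rfl fun v hv => if_neg (mem_sdiff.1 hv).2
    have b : ∑ v ∈ anc m \ anc x, φ v = ∑ v ∈ anc m \ anc x, -ψ v :=
      sum_congr rfl fun v hv => if_pos (mem_sdiff.1 hv).1
    have := sum_sdiff_sub_sum_sdiff (s₁ := anc m) (s₂ := anc x) (f := φ)
    rw [D, symmDiff_def, sup_eq_union, sum_union disjoint_sdiff_sdiff]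
    rw [a, b, sum_neg_distrib] at this
    linarith
  have g : ∀ v, ‖grad (fun x => ∑ v ∈ anc x, φ v) 0 v‖ₑ = ‖ψ v‖ₑ := fun v => by
    have : grad (fun x => ∑ v ∈ anc x, φ v) 0 v = φ v := by
      cases v with
      | nil => simp [grad, anc]
      | cons b w => simp [grad, anc_cons, sum_insert (not_mem b w)]
    rw [this]
    unfold φ
    split_ifs <;> simp
  have := h (fun x => ∑ v ∈ anc x, φ v) 0
  have e' : ∀ x y, ∑ v ∈ anc x, φ v - ∑ v ∈ anc y, φ v = D ψ m x - D ψ m y := fun x y => by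
    rw [e x, e y]
    ring
  simp only [g, e'] at this
  refine le_trans ?_ this
  rw [← lintegral_mul_const _ .of_discrete]
  refine lintegral_mono fun x => ?_
  rw [← setLIntegral_const]
  refine le_trans (setLIntegral_mono .of_discrete fun y hy => ?_) (setLIntegral_le_lintegral Z _)
  simp [hZ y hy]

lemma median (h : A μ C) (h0 : μ ≠ 0) : ∃ m, μ .univ / 2 ≤ μ {x | m <:+ x} ∧
    ∀ b, μ .univ / 2 ≤ μ {x | b :: m <:+ x}ᶜ := by
  have M0 : μ .univ ≠ 0 := by simpa using h0
  have cv := tendsto_measure_iUnion_atTop (μ := μ) (s := fun n => {x : List Bool | x.length < n})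
    fun a b hab x hx => lt_of_lt_of_le hx hab
  rw [Set.iUnion_eq_univ_iff.2 fun x => ⟨_, Nat.lt_succ_self _⟩] at cv
  obtain ⟨n, hn⟩ : ∃ n, ∀ v : List Bool, μ .univ / 2 ≤ μ {x | v <:+ x} → v.length < n := by
    by_contra hc
    push Not at hc
    have sub : ∀ {n} {v : List Bool}, n ≤ v.length → {x : List Bool | x.length < n} ⊆ {x | v <:+ x}ᶜ :=
      fun hv x hx h => (hv.trans (List.IsSuffix.length_le h)).not_gt hx
    by_cases M : μ .univ = ∞
    · obtain ⟨n, hn⟩ := (cv.eventually (lt_mem_nhds M0.bot_lt)).exists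
      obtain ⟨v, h1, h2⟩ := hc (n + 1)
      have hv : v ∉ anc [] := by
        rintro h
        simp [List.suffix_nil.1 (mem_anc.1 h)] at h2
      have := L1 h (fun w => if w = v then 1 else 0) [] (Z := {x | v <:+ x}ᶜ) fun y hy => by
        simpa [D, mem_symmDiff, hv, mem_anc] using hy
      rw [tsum_eq_single v (fun w hw => by simp [hw])] at this
      have i : μ {x | v <:+ x} ≤ ∫⁻ x, ‖D (fun w => if w = v then 1 else 0) [] x‖ₑ ^ 2 ∂μ := by
        rw [← setLIntegral_one]
        refine le_trans (setLIntegral_mono .of_discrete fun y hy => ?_) (setLIntegral_le_lintegral _ _)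
        simp [D, mem_symmDiff, hv, mem_anc.2 hy]
      rw [M, ENNReal.top_div_of_ne_top (by simp)] at h1
      rw [top_le_iff.1 (h1.trans i), ENNReal.top_mul
        (hn.trans_le (measure_mono (sub (by omega)))).ne'] at this
      simp at this
    · obtain ⟨n, hn⟩ := (cv.eventually (lt_mem_nhds (ENNReal.half_lt_self M0 M))).exists
      obtain ⟨v, h1, h2⟩ := hc n
      have := ENNReal.add_lt_add_of_le_of_lt (ENNReal.div_ne_top M (by simp)) h1
        (hn.trans_le (measure_mono (sub h2)))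
      rw [measure_add_measure_compl .of_discrete, ENNReal.add_halves] at this
      exact this.false
  obtain ⟨m, hm, hmax⟩ := Set.exists_max_image {v : List Bool | μ .univ / 2 ≤ μ {x | v <:+ x}}
    List.length ((List.finite_length_lt Bool n).subset hn) ⟨[], by simp [ENNReal.half_le_self]⟩
  refine ⟨m, hm, fun b => not_lt.1 fun h2 => ?_⟩
  have h1 : μ {x | b :: m <:+ x} < μ .univ / 2 := not_le.1 fun h => by simpa using hmax _ h
  have := ENNReal.add_lt_add h1 h2
  rw [measure_add_measure_compl .of_discrete, ENNReal.add_halves] at this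
  exact this.false

lemma main (h : A μ C) (ψ : List Bool → ℝ) (h0 : ∀ v, 0 ≤ ψ v) {g : List Bool → List Bool → ℝ}
    (g0 : ∀ x y, 0 ≤ g x y) (hg : ∀ x y, g x y ≤ D ψ y x) :
    ∫⁻ x, ∫⁻ y, ‖g x y‖ₑ ^ 2 ∂μ ∂μ ≤ 72 * C * ∑' v, ‖ψ v‖ₑ ^ 2 := by
  rcases eq_or_ne μ 0 with rfl | μ0
  · simp
  obtain ⟨m, m1, m2⟩ := median h μ0
  let ψ1 : Bool → List Bool → ℝ := fun b v => if b :: m <:+ v then ψ v else 0
  let ψ2 : List Bool → ℝ := fun v => if true :: m <:+ v ∨ false :: m <:+ v then 0 else ψ v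
  set E := ∑' v, ‖ψ v‖ₑ ^ 2
  have key : ∀ (χ : List Bool → ℝ) (Z : Set (List Bool)), (∀ v, χ v = 0 ∨ χ v = ψ v) →
      μ .univ / 2 ≤ μ Z → (∀ y ∈ Z, D χ m y = 0) →
      (∫⁻ x, ‖D χ m x‖ₑ ^ 2 ∂μ) * μ .univ ≤ 2 * (C * E) := by
    intro χ Z a b c
    have := (mul_le_mul_right b _).trans ((L1 h χ m c).trans (mul_le_mul_right
      (ENNReal.tsum_le_tsum (g := fun v => ‖ψ v‖ₑ ^ 2) fun v => by rcases a v with e | e <;> simp [e]) _))
    rw [← ENNReal.add_halves (μ .univ), mul_add, two_mul]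
    exact add_le_add this this
  have k1 := fun b => key (ψ1 b) _ (fun v => by unfold ψ1; split_ifs <;> simp) (m2 b) fun y hy =>
    sum_eq_zero fun v hv => if_neg fun e => by
      rcases mem_symmDiff.1 hv with h | h
      · exact hy (e.trans (mem_anc.1 h.1))
      · exact not_mem b m (mem_anc.2 (e.trans (mem_anc.1 h.1)))
  have k2 := key ψ2 _ (fun v => by unfold ψ2; split_ifs <;> simp) m1 fun y hy =>
    sum_eq_zero fun v hv => if_pos <| by
      rcases mem_symmDiff.1 hv with h | h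
      · rcases List.suffix_or_suffix_of_suffix (mem_anc.1 h.1) hy with e | ⟨l, rfl⟩
        · exact absurd (mem_anc.2 e) h.2
        · rcases l.eq_nil_or_concat with rfl | ⟨l, b, rfl⟩
          · exact absurd (mem_anc.2 (by simp)) h.2
          · cases b
            · exact .inr ⟨l, by simp⟩
            · exact .inl ⟨l, by simp⟩
      · exact absurd (mem_anc.2 ((mem_anc.1 h.1).trans hy)) h.2
  let u : List Bool → ℝ≥0∞ := fun x =>
    ‖D (ψ1 true) m x‖ₑ ^ 2 + ‖D (ψ1 false) m x‖ₑ ^ 2 + ‖D ψ2 m x‖ₑ ^ 2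
  have hu : (∫⁻ x, u x ∂μ) * μ .univ ≤ 6 * (C * E) := by
    rw [lintegral_add_left .of_discrete, lintegral_add_left .of_discrete, add_mul, add_mul]
    refine (add_le_add (add_le_add (k1 true) (k1 false)) k2).trans_eq (by ring)
  have split : ∀ x, D ψ m x ≤ D (ψ1 true) m x + D (ψ1 false) m x + D ψ2 m x := fun x => by
    simp only [D, ← sum_add_distrib]
    refine sum_le_sum fun v _ => ?_
    have := h0 v
    unfold ψ1 ψ2
    split_ifs <;> first | linarith | tauto
  have pt : ∀ x y, ‖g x y‖ₑ ^ 2 ≤ 6 * u x + 6 * u y := fun x y => by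
    have t : D ψ y x ≤ D ψ m x + D ψ m y := by
      refine (sum_le_sum_of_subset_of_nonneg (symmDiff_triangle (anc x) (anc m) (anc y))
        fun v _ _ => h0 v).trans ?_
      rw [D, D, symmDiff_comm (anc y), ← sum_union_inter]
      exact le_add_of_nonneg_right (sum_nonneg fun v _ => h0 v)
    have r := (hg x y).trans (t.trans (add_le_add (split x) (split y)))
    simp only [u, enorm_eq_nnnorm]
    norm_cast
    rw [← NNReal.coe_le_coe]
    simp only [NNReal.coe_add, NNReal.coe_mul, NNReal.coe_pow, coe_nnnorm, Real.norm_eq_abs, sq_abs,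
      NNReal.coe_ofNat]
    have := pow_le_pow_left₀ (g0 x y) r 2
    have c := sq_sum_le_card_mul_sum_sq (s := (univ : Finset (Fin 6)))
      (f := ![D (ψ1 true) m x, D (ψ1 false) m x, D ψ2 m x, D (ψ1 true) m y, D (ψ1 false) m y, D ψ2 m y])
    simp [Fin.sum_univ_succ] at c
    linarith
  refine (lintegral_mono fun x => lintegral_mono (pt x)).trans ?_
  simp only [lintegral_add_left Measurable.of_discrete, lintegral_const,
    lintegral_const_mul _ Measurable.of_discrete, lintegral_mul_const _ Measurable.of_discrete]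
  simp only [mul_assoc]
  exact (add_le_add (mul_le_mul_right hu 6) (mul_le_mul_right hu 6)).trans_eq (by ring)

end

theorem result {𝕜 H : Type} [RCLike 𝕜] [NormedAddCommGroup H] [InnerProductSpace 𝕜 H]
    [CompleteSpace H] [RKHS 𝕜 H (List Bool × List Bool) 𝕜]
    (hK : ∀ p q, RKHS.kernel H p q 1 = (|k p q| : ℤ))
    [MeasurableSpace (List Bool)] [DiscreteMeasurableSpace (List Bool)]
    (μ : Measure (List Bool)) (C : ℝ≥0) (h : A μ C) (G : H) :
    ∫⁻ x, ∫⁻ y, ‖G (x, y)‖ₑ ^ 2 ∂μ ∂μ ≤ 72 * C * ‖G‖ₑ ^ 2 := by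
  have := main h (fun v => ‖G (v.tail, v)‖) (fun _ => norm_nonneg _) (g := fun x y => ‖G (x, y)‖)
    (fun _ _ => norm_nonneg _) fun x y => by rw [rep hK]; exact norm_sum_le _ _
  simp only [enorm_norm] at this
  exact this.trans (mul_le_mul_right (bessel hK G) _)

end Pool.Agent.Results.MP_efe325_an.AimpB
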